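import Mathlib

set_option autoImplicit false

namespace Pool.Agent.Lib.MP_cb668b_co

/-- The `(a, b)`-benzel. -/
def benzel (a b : ℤ) : Set (ℤ × ℤ × ℤ) :=
  {c | c.1 + c.2.1 + c.2.2 = 1 ∧
    (-(a - 1) ≤ c.2.1 - c.1 ∧ c.2.1 - c.1 ≤ b - 1) ∧
    (-(a - 1) ≤ c.2.2 - c.2.1 ∧ c.2.2 - c.2.1 ≤ b - 1) ∧
    (-(a - 1) ≤ c.1 - c.2.2 ∧ c.1 - c.2.2 ≤ b - 1)}

/-- Left stones `{q - e₁, q - e₂, q - e₃}` with `q₁ + q₂ + q₃ = 2`. -/
def IsLeftStone (t : Set (ℤ × ℤ × ℤ)) : Prop :=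
  ∃ q₁ q₂ q₃ : ℤ, q₁ + q₂ + q₃ = 2 ∧
    t = {(q₁ - 1, q₂, q₃), (q₁, q₂ - 1, q₃), (q₁, q₂, q₃ - 1)}

/-- Bones `{c, c + d, c + 2 d}` with `d = e₁ - e₂`, `d = e₂ - e₃` or `d = e₃ - e₁`. -/
def IsBone (t : Set (ℤ × ℤ × ℤ)) : Prop :=
  ∃ c d : ℤ × ℤ × ℤ, c.1 + c.2.1 + c.2.2 = 1 ∧
    (d = (1, -1, 0) ∨ d = (0, 1, -1) ∨ d = (-1, 0, 1)) ∧ t = {c, c + d, c + 2 • d}

/-- `T` is a tiling of the region `S` by left stones and bones. -/
def IsTiling (T : Set (Set (ℤ × ℤ × ℤ))) (S : Set (ℤ × ℤ × ℤ)) : Prop :=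
  (∀ t ∈ T, IsLeftStone t ∨ IsBone t) ∧ T.PairwiseDisjoint id ∧ ⋃₀ T = S

/-- The Conway-Lagarias quantity `I(a, b)` of the problem. -/
def invI (a b : ℤ) : ℤ :=
  if (a + b) % 3 = 0 then (3 * a ^ 2 - 6 * a * b + 3 * b ^ 2 - a - b) / 2
  else if (a + b) % 3 = 1 then (-a ^ 2 + 4 * a * b - b ^ 2 - a - b + 2) / 2
  else (3 * a ^ 2 - 6 * a * b + 3 * b ^ 2 + a + b - 2) / 2

/-- Tileability. -/
def Tileable (S : Set (ℤ × ℤ × ℤ)) : Prop := ∃ T, IsTiling T S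

theorem Tileable.union {S S' : Set (ℤ × ℤ × ℤ)} (h : Tileable S) (h' : Tileable S')
    (hd : Disjoint S S') : Tileable (S ∪ S') := by
  obtain ⟨T, h1, h2, h3⟩ := h
  obtain ⟨T', h1', h2', h3'⟩ := h'
  refine ⟨T ∪ T', ?_, ?_, ?_⟩
  · rintro t (ht | ht)
    · exact h1 t ht
    · exact h1' t ht
  · have hsub : ∀ t ∈ T, t ⊆ S := fun t ht => h3 ▸ Set.subset_sUnion_of_mem ht
    have hsub' : ∀ t ∈ T', t ⊆ S' := fun t ht => h3' ▸ Set.subset_sUnion_of_mem ht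
    rintro t (ht | ht) t' (ht' | ht') hne
    · exact h2 ht ht' hne
    · exact Set.disjoint_of_subset (hsub t ht) (hsub' t' ht') hd
    · exact Set.disjoint_of_subset (hsub' t ht) (hsub t' ht') hd.symm
    · exact h2' ht ht' hne
  · rw [Set.sUnion_union, h3, h3']

/-- Images under tile-preserving bijections. -/
theorem Tileable.image {S : Set (ℤ × ℤ × ℤ)} (h : Tileable S)
    (φ : ℤ × ℤ × ℤ ≃ ℤ × ℤ × ℤ)
    (hφ : ∀ t, IsLeftStone t ∨ IsBone t → IsLeftStone (φ '' t) ∨ IsBone (φ '' t)) :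
    Tileable (φ '' S) := by
  obtain ⟨T, h1, h2, h3⟩ := h
  refine ⟨(fun t => φ '' t) '' T, ?_, ?_, ?_⟩
  · rintro _ ⟨t, ht, rfl⟩
    exact hφ t (h1 t ht)
  · rintro _ ⟨t, ht, rfl⟩ _ ⟨t', ht', rfl⟩ hne
    have hne' : t ≠ t' := by rintro rfl; exact hne rfl
    exact (Set.disjoint_image_iff φ.injective).2 (h2 ht ht' hne')
  · rw [← h3, Set.sUnion_image, Set.sUnion_eq_biUnion, Set.image_iUnion₂]

/-- Tiling by bones of one direction from a base function. -/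
theorem tileable_of_base (d : ℤ × ℤ × ℤ)
    (hd : d = (1, -1, 0) ∨ d = (0, 1, -1) ∨ d = (-1, 0, 1)) (S : Set (ℤ × ℤ × ℤ))
    (f : ℤ × ℤ × ℤ → ℤ × ℤ × ℤ)
    (h : ∀ c ∈ S, (f c).1 + (f c).2.1 + (f c).2.2 = 1 ∧
      (c = f c ∨ c = f c + d ∨ c = f c + 2 • d) ∧ f c ∈ S ∧ f c + d ∈ S ∧ f c + 2 • d ∈ S ∧
      f (f c) = f c ∧ f (f c + d) = f c ∧ f (f c + 2 • d) = f c) : Tileable S := by
  have key : ∀ c ∈ S, ∀ x ∈ ({f c, f c + d, f c + 2 • d} : Set (ℤ × ℤ × ℤ)), f x = f c := by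
    rintro c hc x (rfl | rfl | rfl)
    · exact (h c hc).2.2.2.2.2.1
    · exact (h c hc).2.2.2.2.2.2.1
    · exact (h c hc).2.2.2.2.2.2.2
  refine ⟨(fun c => ({f c, f c + d, f c + 2 • d} : Set (ℤ × ℤ × ℤ))) '' S, ?_, ?_, ?_⟩
  · rintro _ ⟨c, hc, rfl⟩
    right
    exact ⟨f c, d, (h c hc).1, hd, rfl⟩
  · rintro _ ⟨c, hc, rfl⟩ _ ⟨c', hc', rfl⟩ hne
    refine Set.disjoint_left.2 fun x hx hx' => hne ?_
    have h1 := key c hc x hx
    have h2 := key c' hc' x hx'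
    have h3 : f c = f c' := h1.symm.trans h2
    simp only [h3]
  · apply Set.Subset.antisymm
    · rintro x ⟨_, ⟨c, hc, rfl⟩, hx⟩
      rcases hx with rfl | rfl | rfl
      · exact (h c hc).2.2.1
      · exact (h c hc).2.2.2.1
      · exact (h c hc).2.2.2.2.1
    · intro c hc
      refine ⟨_, ⟨c, hc, rfl⟩, ?_⟩
      rcases (h c hc).2.1 with h1 | h1 | h1
      · left; exact h1
      · right; left; exact h1
      · right; right; exact h1

theorem tileable_singleton {t : Set (ℤ × ℤ × ℤ)} (h : IsLeftStone t ∨ IsBone t) :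
    Tileable t := by
  refine ⟨{t}, ?_, ?_, ?_⟩
  · rintro _ rfl; exact h
  · exact Set.pairwiseDisjoint_singleton _ _
  · exact Set.sUnion_singleton t

/-- Translation. -/
def trans (x y : ℤ) : ℤ × ℤ × ℤ ≃ ℤ × ℤ × ℤ where
  toFun c := (c.1 + x, c.2.1 + y, c.2.2 - x - y)
  invFun c := (c.1 - x, c.2.1 - y, c.2.2 + x + y)
  left_inv c := by ext <;> simp <;> ring
  right_inv c := by ext <;> simp <;> ring

/-- Rotation. -/
def rot : ℤ × ℤ × ℤ ≃ ℤ × ℤ × ℤ where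
  toFun c := (c.2.1, c.2.2, c.1)
  invFun c := (c.2.2, c.1, c.2.1)
  left_inv _ := rfl
  right_inv _ := rfl

/-- Reflection. -/
def refl : ℤ × ℤ × ℤ ≃ ℤ × ℤ × ℤ where
  toFun c := (c.2.1, c.1, c.2.2)
  invFun c := (c.2.1, c.1, c.2.2)
  left_inv _ := rfl
  right_inv _ := rfl

theorem trans_tile (x y : ℤ) (t : Set (ℤ × ℤ × ℤ)) (h : IsLeftStone t ∨ IsBone t) :
    IsLeftStone (trans x y '' t) ∨ IsBone (trans x y '' t) := by
  rcases h with ⟨q₁, q₂, q₃, hq, rfl⟩ | ⟨c, d, hc, hd, rfl⟩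
  · left
    refine ⟨q₁ + x, q₂ + y, q₃ - x - y, by omega, ?_⟩
    rw [Set.image_insert_eq, Set.image_pair]
    simp only [trans, Equiv.coe_fn_mk]
    congr 1
    · ext <;> simp; ring
    · congr 1
      · ext <;> simp; ring
      · congr 1
        ext <;> simp; ring
  · right
    refine ⟨trans x y c, d, ?_, hd, ?_⟩
    · simp only [trans, Equiv.coe_fn_mk]; omega
    · rw [Set.image_insert_eq, Set.image_pair]
      congr 1
      congr 1
      · ext <;> simp [trans] <;> ring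
      · congr 1
        ext <;> simp [trans] <;> ring

theorem rot_tile (t : Set (ℤ × ℤ × ℤ)) (h : IsLeftStone t ∨ IsBone t) :
    IsLeftStone (rot '' t) ∨ IsBone (rot '' t) := by
  rcases h with ⟨q₁, q₂, q₃, hq, rfl⟩ | ⟨c, d, hc, hd, rfl⟩
  · left
    refine ⟨q₂, q₃, q₁, by omega, ?_⟩
    rw [Set.image_insert_eq, Set.image_pair]
    simp only [rot, Equiv.coe_fn_mk]
    ext x
    simp only [Set.mem_insert_iff, Set.mem_singleton_iff]
    tauto
  · right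
    refine ⟨rot c, rot d, ?_, ?_, ?_⟩
    · simp only [rot, Equiv.coe_fn_mk]; omega
    · rcases hd with rfl | rfl | rfl
      · right; right; rfl
      · left; rfl
      · right; left; rfl
    · rw [Set.image_insert_eq, Set.image_pair]
      rfl

theorem refl_tile (t : Set (ℤ × ℤ × ℤ)) (h : IsLeftStone t ∨ IsBone t) :
    IsLeftStone (refl '' t) ∨ IsBone (refl '' t) := by
  rcases h with ⟨q₁, q₂, q₃, hq, rfl⟩ | ⟨c, d, hc, hd, rfl⟩
  · left
    refine ⟨q₂, q₁, q₃, by omega, ?_⟩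
    rw [Set.image_insert_eq, Set.image_pair]
    simp only [refl, Equiv.coe_fn_mk]
    ext x
    simp only [Set.mem_insert_iff, Set.mem_singleton_iff]
    tauto
  · right
    refine ⟨refl (c + 2 • d), -refl d, ?_, ?_, ?_⟩
    · rcases hd with rfl | rfl | rfl <;> simp [refl] <;> omega
    · rcases hd with rfl | rfl | rfl
      · left; simp [refl]
      · right; right; simp [refl]
      · right; left; simp [refl]
    · rw [Set.image_insert_eq, Set.image_pair]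
      have e1 : refl (c + d) = refl (c + 2 • d) + -refl d := by
        ext <;> simp [refl] <;> ring
      have e2 : refl c = refl (c + 2 • d) + 2 • -refl d := by
        ext <;> simp [refl]
      rw [e1, e2]
      ext x
      simp only [Set.mem_insert_iff, Set.mem_singleton_iff]
      tauto

theorem image_refl_benzel (a b : ℤ) : refl '' benzel a b = benzel b a := by
  ext c
  rw [Equiv.image_eq_preimage_symm]
  simp only [refl, benzel, Set.mem_preimage, Set.mem_ofPred_eq, Equiv.coe_fn_symm_mk]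
  omega

end Pool.Agent.Lib.MP_cb668b_co
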