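import Pool.Agent.Lib.MP_cb668b_co.Basic

section

set_option autoImplicit false

namespace Pool.Agent.Lib.MP_cb668b_co

/-- Start of the vertical bones. -/
def Jf (A B i : ℤ) : ℤ := max (max (4 - 2 * i - A) (i - A)) (-((i + B - 1) / 2))

theorem Jf_spec (A B i : ℤ) : 4 - 2 * i - A ≤ Jf A B i ∧ i - A ≤ Jf A B i ∧
    1 - i - B ≤ 2 * Jf A B i ∧
    (Jf A B i = 4 - 2 * i - A ∨ Jf A B i = i - A ∨ 2 * Jf A B i = 1 - i - B ∨
      2 * Jf A B i = 2 - i - B) := by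
  unfold Jf
  omega

/-- Row bones at the upper left. -/
def R1 (A B kc : ℤ) : Set (ℤ × ℤ × ℤ) :=
  {c | c.1 + c.2.1 + c.2.2 = 1 ∧ kc + 2 ≤ c.2.2 ∧ c.2.2 - A ≤ c.1 ∧ c.1 ≤ c.2.2 - A + 2 ∧
    3 * c.2.2 ≤ A + B - 1}

/-- The left stone. -/
def RL (A kc : ℤ) : Set (ℤ × ℤ × ℤ) :=
  {(kc + 2 - A - 1, A - 1 - 2 * kc, kc + 1), (kc + 2 - A, A - 1 - 2 * kc - 1, kc + 1),
    (kc + 2 - A, A - 1 - 2 * kc, kc + 1 - 1)}

/-- Vertical bones. -/
def R4 (A B kc : ℤ) : Set (ℤ × ℤ × ℤ) :=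
  {c | c.1 + c.2.1 + c.2.2 = 1 ∧ kc + 4 - A ≤ c.1 ∧ 3 * c.1 ≤ A + B - 1 ∧
    Jf A B c.1 ≤ c.2.1 ∧ c.2.1 ≤ Jf A B c.1 + 2}

/-- The special bone. -/
def RS (A kc : ℤ) : Set (ℤ × ℤ × ℤ) :=
  {(kc + 3 - A, A - 3 - 2 * kc, kc + 1), (kc + 3 - A, A - 2 - 2 * kc, kc),
    (kc + 3 - A, A - 1 - 2 * kc, kc - 1)}

/-- The extra bone. -/
def RE (A kc : ℤ) : Set (ℤ × ℤ × ℤ) :=
  {(kc - A + 3, A - 2 * kc, kc - 2), (kc - A + 2, A - 2 * kc, kc - 1),
    (kc - A + 1, A - 2 * kc, kc)}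

/-- Bones of the left strip. -/
def R6 (A B kc : ℤ) : Set (ℤ × ℤ × ℤ) :=
  {c | c.1 + c.2.1 + c.2.2 = 1 ∧ B - 2 ≤ c.2.1 - c.1 ∧ c.2.1 - c.1 ≤ B ∧
    B + 1 - kc ≤ 2 * c.2.1 ∧ 3 * c.2.1 ≤ A + B - 1}

theorem tileable_R1 (A B kc : ℤ) : Tileable (R1 A B kc) := by
  refine tileable_of_base (1, -1, 0) (Or.inl rfl) _
    (fun c => (c.2.2 - A, 1 + A - 2 * c.2.2, c.2.2)) ?_
  rintro ⟨i, j, k⟩ ⟨h1, h2, h3, h4, h5⟩
  simp only [R1, Set.mem_ofPred_eq, Prod.mk_add_mk, Prod.smul_mk, Prod.mk.injEq,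
    nsmul_eq_mul, add_zero, mul_zero, true_and, and_true] at *
  push_cast
  omega

theorem tileable_R4 (A B kc : ℤ) : Tileable (R4 A B kc) := by
  refine tileable_of_base (0, 1, -1) (Or.inr (Or.inl rfl)) _
    (fun c => (c.1, Jf A B c.1, 1 - c.1 - Jf A B c.1)) ?_
  rintro ⟨i, j, k⟩ ⟨h1, h2, h3, h4, h5⟩
  simp only [R4, Set.mem_ofPred_eq, Prod.mk_add_mk, Prod.smul_mk, Prod.mk.injEq,
    nsmul_eq_mul, add_zero, mul_zero, true_and, and_true] at *
  push_cast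
  generalize Jf A B i = J at *
  omega

theorem tileable_R6 (A B kc : ℤ) : Tileable (R6 A B kc) := by
  refine tileable_of_base (-1, 0, 1) (Or.inr (Or.inr rfl)) _
    (fun c => (c.2.1 - B + 2, c.2.1, B - 1 - 2 * c.2.1)) ?_
  rintro ⟨i, j, k⟩ ⟨h1, h2, h3, h4, h5⟩
  simp only [R6, Set.mem_ofPred_eq, Prod.mk_add_mk, Prod.smul_mk, Prod.mk.injEq,
    nsmul_eq_mul, add_zero, mul_zero, true_and, and_true] at *
  push_cast
  omega

theorem tileable_RL (A kc : ℤ) : Tileable (RL A kc) := by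
  refine tileable_singleton (Or.inl ⟨kc + 2 - A, A - 1 - 2 * kc, kc + 1, by ring, rfl⟩)

theorem tileable_RS (A kc : ℤ) : Tileable (RS A kc) := by
  refine tileable_singleton (Or.inr ⟨(kc + 3 - A, A - 3 - 2 * kc, kc + 1), (0, 1, -1), by
    simp; ring, Or.inr (Or.inl rfl), ?_⟩)
  unfold RS
  congr 1
  congr 1
  · ext <;> simp; ring
  · congr 1
    ext <;> simp <;> ring

theorem tileable_RE (A kc : ℤ) : Tileable (RE A kc) := by
  refine tileable_singleton (Or.inr ⟨(kc - A + 3, A - 2 * kc, kc - 2), (-1, 0, 1), by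
    simp; ring, Or.inr (Or.inr rfl), ?_⟩)
  unfold RE
  congr 1
  congr 1
  · ext <;> simp <;> ring
  · congr 1
    ext <;> simp; ring

/-- The shifted inner benzel. -/
def RI (A B : ℤ) : Set (ℤ × ℤ × ℤ) :=
  {c | c.1 + c.2.1 + c.2.2 = 1 ∧ (-(A - 3) ≤ c.2.1 - c.1 ∧ c.2.1 - c.1 ≤ B - 3) ∧
    (-A ≤ c.2.2 - c.2.1 ∧ c.2.2 - c.2.1 ≤ B - 6) ∧ (-(A - 6) ≤ c.1 - c.2.2 ∧ c.1 - c.2.2 ≤ B)}

/-- The outer benzel. -/
def RO (A B : ℤ) : Set (ℤ × ℤ × ℤ) :=
  {c | c.1 + c.2.1 + c.2.2 = 1 ∧ (-A ≤ c.2.1 - c.1 ∧ c.2.1 - c.1 ≤ B) ∧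
    (-A ≤ c.2.2 - c.2.1 ∧ c.2.2 - c.2.1 ≤ B) ∧ (-A ≤ c.1 - c.2.2 ∧ c.1 - c.2.2 ≤ B)}

section Part

variable {A B kc i j k : ℤ}

theorem sub1 (hk : 3 * kc = 2 * A - B + 1) (h1 : A ≤ 2 * B - 5) (h2 : B ≤ 2 * A - 2)
    (h : (i, j, k) ∈ R1 A B kc) : (i, j, k) ∈ RO A B := by
  obtain ⟨a1, a2, a3, a4, a5⟩ := h
  simp only at a1 a2 a3 a4 a5
  refine ⟨by simpa using a1, ⟨?_, ?_⟩, ⟨?_, ?_⟩, ?_, ?_⟩ <;> simp only <;> omega

theorem subL (hk : 3 * kc = 2 * A - B + 1) (h1 : A ≤ 2 * B - 5) (h2 : B ≤ 2 * A - 2)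
    (h : (i, j, k) ∈ RL A kc) : (i, j, k) ∈ RO A B := by
  simp only [RL, Set.mem_insert_iff, Set.mem_singleton_iff, Prod.mk.injEq] at h
  refine ⟨?_, ⟨?_, ?_⟩, ⟨?_, ?_⟩, ?_, ?_⟩ <;> simp only <;> omega

theorem subS (hk : 3 * kc = 2 * A - B + 1) (h1 : A ≤ 2 * B - 5) (h2 : B ≤ 2 * A - 2)
    (h : (i, j, k) ∈ RS A kc) : (i, j, k) ∈ RO A B := by
  simp only [RS, Set.mem_insert_iff, Set.mem_singleton_iff, Prod.mk.injEq] at h
  refine ⟨?_, ⟨?_, ?_⟩, ⟨?_, ?_⟩, ?_, ?_⟩ <;> simp only <;> omega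

theorem subE (hk : 3 * kc = 2 * A - B + 1) (h1 : A ≤ 2 * B - 5) (h2 : B ≤ 2 * A - 2)
    (h : (i, j, k) ∈ RE A kc) : (i, j, k) ∈ RO A B := by
  simp only [RE, Set.mem_insert_iff, Set.mem_singleton_iff, Prod.mk.injEq] at h
  refine ⟨?_, ⟨?_, ?_⟩, ⟨?_, ?_⟩, ?_, ?_⟩ <;> simp only <;> omega

theorem sub6 (hk : 3 * kc = 2 * A - B + 1) (h1 : A ≤ 2 * B - 5) (h2 : B ≤ 2 * A - 2)
    (h : (i, j, k) ∈ R6 A B kc) : (i, j, k) ∈ RO A B := by
  obtain ⟨a1, a2, a3, a4, a5⟩ := h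
  simp only at a1 a2 a3 a4 a5
  refine ⟨by simpa using a1, ⟨?_, ?_⟩, ⟨?_, ?_⟩, ?_, ?_⟩ <;> simp only <;> omega

theorem sub4 (hk : 3 * kc = 2 * A - B + 1) (h1 : A ≤ 2 * B - 5) (h2 : B ≤ 2 * A - 2)
    (h : (i, j, k) ∈ R4 A B kc) : (i, j, k) ∈ RO A B := by
  obtain ⟨a1, a2, a3, a4, a5⟩ := h
  obtain ⟨j1, j2, j3, j4⟩ := Jf_spec A B i
  simp only at a1 a2 a3 a4 a5
  generalize Jf A B i = J at *
  refine ⟨by simpa using a1, ⟨?_, ?_⟩, ⟨?_, ?_⟩, ?_, ?_⟩ <;> simp only <;> omega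

theorem subI (h : (i, j, k) ∈ RI A B) : (i, j, k) ∈ RO A B := by
  obtain ⟨a1, ⟨a2, a3⟩, ⟨a4, a5⟩, a6, a7⟩ := h
  simp only at a1 a2 a3 a4 a5 a6 a7
  refine ⟨by simpa using a1, ⟨?_, ?_⟩, ⟨?_, ?_⟩, ?_, ?_⟩ <;> simp only <;> omega

end Part

end Pool.Agent.Lib.MP_cb668b_co
end

section

set_option autoImplicit false

namespace Pool.Agent.Lib.MP_cb668b_co

section Part

variable {A B kc i j k : ℤ}

theorem cover (hk : 3 * kc = 2 * A - B + 1) (h1 : A ≤ 2 * B - 5) (h2 : B ≤ 2 * A - 2)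
    (h : (i, j, k) ∈ RO A B) : (i, j, k) ∈ RI A B ∨ (i, j, k) ∈ R1 A B kc ∨
      (i, j, k) ∈ RL A kc ∨ (i, j, k) ∈ RS A kc ∨ (i, j, k) ∈ RE A kc ∨
      (i, j, k) ∈ R6 A B kc ∨ (i, j, k) ∈ R4 A B kc := by
  obtain ⟨a1, ⟨a2, a3⟩, ⟨a4, a5⟩, a6, a7⟩ := h
  simp only at a1 a2 a3 a4 a5 a6 a7
  by_cases c1 : kc + 2 ≤ k ∧ i ≤ k - A + 2
  · right; left
    refine ⟨a1, ?_, ?_, ?_, ?_⟩ <;> simp only <;> omega
  by_cases c2 : kc + 4 - A ≤ i
  · obtain ⟨j1, j2, j3, j4⟩ := Jf_spec A B i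
    have hJ : Jf A B i ≤ j := by
      generalize Jf A B i = J at *
      rcases j4 with j4 | j4 | j4 | j4 <;> omega
    by_cases c3 : j ≤ Jf A B i + 2
    · right; right; right; right; right; right
      refine ⟨a1, c2, ?_, hJ, c3⟩
      simp only
      omega
    · by_cases c4 : B - 2 ≤ j - i
      · right; right; right; right; right; left
        refine ⟨a1, c4, a3, ?_, ?_⟩
        · simp only; omega
        · simp only
          omega
      · left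
        refine ⟨a1, ⟨?_, ?_⟩, ⟨a4, ?_⟩, ?_, a7⟩ <;> simp only <;> omega
  · by_cases c4 : B - 2 ≤ j - i ∧ ¬ (k = kc ∧ i = kc - A + 1)
    · by_cases c5 : k = kc + 1 ∧ i = kc + 1 - A
      · exfalso; omega
      · right; right; right; right; right; left
        refine ⟨a1, c4.1, a3, ?_, ?_⟩
        · simp only; omega
        · simp only
          omega
    · by_cases c6 : -(A - 6) ≤ i - k
      · left
        refine ⟨a1, ⟨?_, ?_⟩, ⟨a4, ?_⟩, ?_, a7⟩ <;> simp only <;> omega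
      · obtain ⟨u, hu⟩ : ∃ u, i = kc - A + u := ⟨i - kc + A, by ring⟩
        obtain ⟨v, hv⟩ : ∃ v, k = kc + v := ⟨k - kc, by ring⟩
        have hj : j = 1 - 2 * kc + A - u - v := by linarith
        have hu3 : u ≤ 3 := by omega
        have hv1 : v ≤ 1 := by omega
        have hx : 3 ≤ 2 * u + v ∨ (u = 1 ∧ v = 0) := by omega
        have hv2 : -2 ≤ v := by omega
        have hu1 : 1 ≤ u := by omega
        subst hu hv hj
        clear c1 c2 c4
        simp only [RL, RS, RE, Set.mem_insert_iff, Set.mem_singleton_iff, Prod.mk.injEq]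
        interval_cases v <;> interval_cases u <;> first
          | (exfalso; omega)
          | (right; right; left; left; omega)
          | (right; right; left; right; left; omega)
          | (right; right; left; right; right; omega)
          | (right; right; right; left; left; omega)
          | (right; right; right; left; right; left; omega)
          | (right; right; right; left; right; right; omega)
          | (right; right; right; right; left; left; omega)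
          | (right; right; right; right; left; right; left; omega)
          | (right; right; right; right; left; right; right; omega)

end Part

end Pool.Agent.Lib.MP_cb668b_co
end

section

set_option autoImplicit false

namespace Pool.Agent.Lib.MP_cb668b_co

section Disj

variable {A B kc i j k : ℤ}

theorem dI1 (h : (i, j, k) ∈ RI A B) (h' : (i, j, k) ∈ R1 A B kc) : False := by
  obtain ⟨a1, ⟨a2, a3⟩, ⟨a4, a5⟩, a6, a7⟩ := h
  obtain ⟨b1, b2, b3, b4, b5⟩ := h'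
  simp only at a1 a2 a3 a4 a5 a6 a7 b1 b2 b3 b4 b5
  omega

theorem dIL (hk : 3 * kc = 2 * A - B + 1)
    (h : (i, j, k) ∈ RI A B) (h' : (i, j, k) ∈ RL A kc) : False := by
  obtain ⟨a1, ⟨a2, a3⟩, ⟨a4, a5⟩, a6, a7⟩ := h
  simp only [RL, Set.mem_insert_iff, Set.mem_singleton_iff, Prod.mk.injEq] at h'
  simp only at a1 a2 a3 a4 a5 a6 a7
  omega

theorem dIS (hk : 3 * kc = 2 * A - B + 1)
    (h : (i, j, k) ∈ RI A B) (h' : (i, j, k) ∈ RS A kc) : False := by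
  obtain ⟨a1, ⟨a2, a3⟩, ⟨a4, a5⟩, a6, a7⟩ := h
  simp only [RS, Set.mem_insert_iff, Set.mem_singleton_iff, Prod.mk.injEq] at h'
  simp only at a1 a2 a3 a4 a5 a6 a7
  omega

theorem dIE (hk : 3 * kc = 2 * A - B + 1)
    (h : (i, j, k) ∈ RI A B) (h' : (i, j, k) ∈ RE A kc) : False := by
  obtain ⟨a1, ⟨a2, a3⟩, ⟨a4, a5⟩, a6, a7⟩ := h
  simp only [RE, Set.mem_insert_iff, Set.mem_singleton_iff, Prod.mk.injEq] at h'
  simp only at a1 a2 a3 a4 a5 a6 a7
  omega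

theorem dI6 (h : (i, j, k) ∈ RI A B) (h' : (i, j, k) ∈ R6 A B kc) : False := by
  obtain ⟨a1, ⟨a2, a3⟩, ⟨a4, a5⟩, a6, a7⟩ := h
  obtain ⟨b1, b2, b3, b4, b5⟩ := h'
  simp only at a1 a2 a3 a4 a5 a6 a7 b1 b2 b3 b4 b5
  omega

theorem dI4 (h : (i, j, k) ∈ RI A B) (h' : (i, j, k) ∈ R4 A B kc) : False := by
  obtain ⟨a1, ⟨a2, a3⟩, ⟨a4, a5⟩, a6, a7⟩ := h
  obtain ⟨b1, b2, b3, b4, b5⟩ := h'
  obtain ⟨j1, j2, j3, j4⟩ := Jf_spec A B i
  simp only at a1 a2 a3 a4 a5 a6 a7 b1 b2 b3 b4 b5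
  generalize Jf A B i = J at *
  rcases j4 with j4 | j4 | j4 | j4 <;> omega

theorem d1L (h : (i, j, k) ∈ R1 A B kc) (h' : (i, j, k) ∈ RL A kc) : False := by
  obtain ⟨b1, b2, b3, b4, b5⟩ := h
  simp only [RL, Set.mem_insert_iff, Set.mem_singleton_iff, Prod.mk.injEq] at h'
  simp only at b1 b2 b3 b4 b5
  omega

theorem d1S (h : (i, j, k) ∈ R1 A B kc) (h' : (i, j, k) ∈ RS A kc) : False := by
  obtain ⟨b1, b2, b3, b4, b5⟩ := h
  simp only [RS, Set.mem_insert_iff, Set.mem_singleton_iff, Prod.mk.injEq] at h'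
  simp only at b1 b2 b3 b4 b5
  omega

theorem d1E (h : (i, j, k) ∈ R1 A B kc) (h' : (i, j, k) ∈ RE A kc) : False := by
  obtain ⟨b1, b2, b3, b4, b5⟩ := h
  simp only [RE, Set.mem_insert_iff, Set.mem_singleton_iff, Prod.mk.injEq] at h'
  simp only at b1 b2 b3 b4 b5
  omega

theorem d16 (hk : 3 * kc = 2 * A - B + 1) (h : (i, j, k) ∈ R1 A B kc)
    (h' : (i, j, k) ∈ R6 A B kc) : False := by
  obtain ⟨b1, b2, b3, b4, b5⟩ := h
  obtain ⟨a1, a2, a3, a4, a5⟩ := h'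
  simp only at b1 b2 b3 b4 b5 a1 a2 a3 a4 a5
  omega

theorem d14 (h : (i, j, k) ∈ R1 A B kc) (h' : (i, j, k) ∈ R4 A B kc) : False := by
  obtain ⟨b1, b2, b3, b4, b5⟩ := h
  obtain ⟨a1, a2, a3, a4, a5⟩ := h'
  obtain ⟨j1, j2, j3, j4⟩ := Jf_spec A B i
  simp only at b1 b2 b3 b4 b5 a1 a2 a3 a4 a5
  generalize Jf A B i = J at *
  omega

theorem dLS (h : (i, j, k) ∈ RL A kc) (h' : (i, j, k) ∈ RS A kc) : False := by
  simp only [RL, RS, Set.mem_insert_iff, Set.mem_singleton_iff, Prod.mk.injEq] at h h'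
  omega

theorem dLE (h : (i, j, k) ∈ RL A kc) (h' : (i, j, k) ∈ RE A kc) : False := by
  simp only [RL, RE, Set.mem_insert_iff, Set.mem_singleton_iff, Prod.mk.injEq] at h h'
  omega

theorem dSE (h : (i, j, k) ∈ RS A kc) (h' : (i, j, k) ∈ RE A kc) : False := by
  simp only [RS, RE, Set.mem_insert_iff, Set.mem_singleton_iff, Prod.mk.injEq] at h h'
  omega

theorem dL6 (hk : 3 * kc = 2 * A - B + 1) (h : (i, j, k) ∈ RL A kc)
    (h' : (i, j, k) ∈ R6 A B kc) : False := by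
  obtain ⟨a1, a2, a3, a4, a5⟩ := h'
  simp only [RL, Set.mem_insert_iff, Set.mem_singleton_iff, Prod.mk.injEq] at h
  simp only at a1 a2 a3 a4 a5
  omega

theorem dS6 (hk : 3 * kc = 2 * A - B + 1) (h : (i, j, k) ∈ RS A kc)
    (h' : (i, j, k) ∈ R6 A B kc) : False := by
  obtain ⟨a1, a2, a3, a4, a5⟩ := h'
  simp only [RS, Set.mem_insert_iff, Set.mem_singleton_iff, Prod.mk.injEq] at h
  simp only at a1 a2 a3 a4 a5
  omega

theorem dE6 (hk : 3 * kc = 2 * A - B + 1) (h : (i, j, k) ∈ RE A kc)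
    (h' : (i, j, k) ∈ R6 A B kc) : False := by
  obtain ⟨a1, a2, a3, a4, a5⟩ := h'
  simp only [RE, Set.mem_insert_iff, Set.mem_singleton_iff, Prod.mk.injEq] at h
  simp only at a1 a2 a3 a4 a5
  omega

theorem dL4 (h : (i, j, k) ∈ RL A kc) (h' : (i, j, k) ∈ R4 A B kc) : False := by
  obtain ⟨a1, a2, a3, a4, a5⟩ := h'
  simp only [RL, Set.mem_insert_iff, Set.mem_singleton_iff, Prod.mk.injEq] at h
  simp only at a1 a2 a3 a4 a5
  omega

theorem dS4 (h : (i, j, k) ∈ RS A kc) (h' : (i, j, k) ∈ R4 A B kc) : False := by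
  obtain ⟨a1, a2, a3, a4, a5⟩ := h'
  simp only [RS, Set.mem_insert_iff, Set.mem_singleton_iff, Prod.mk.injEq] at h
  simp only at a1 a2 a3 a4 a5
  omega

theorem dE4 (h : (i, j, k) ∈ RE A kc) (h' : (i, j, k) ∈ R4 A B kc) : False := by
  obtain ⟨a1, a2, a3, a4, a5⟩ := h'
  simp only [RE, Set.mem_insert_iff, Set.mem_singleton_iff, Prod.mk.injEq] at h
  simp only at a1 a2 a3 a4 a5
  omega

theorem d64 (hk : 3 * kc = 2 * A - B + 1) (h1 : A ≤ 2 * B - 5) (h2 : B ≤ 2 * A - 2)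
    (h : (i, j, k) ∈ R6 A B kc) (h' : (i, j, k) ∈ R4 A B kc) : False := by
  obtain ⟨b1, b2, b3, b4, b5⟩ := h
  obtain ⟨a1, a2, a3, a4, a5⟩ := h'
  obtain ⟨j1, j2, j3, j4⟩ := Jf_spec A B i
  simp only at b1 b2 b3 b4 b5 a1 a2 a3 a4 a5
  generalize Jf A B i = J at *
  rcases j4 with j4 | j4 | j4 | j4 <;> omega

end Disj

theorem benzel_eq_RO (A B : ℤ) : benzel (A + 1) (B + 1) = RO A B := by
  ext ⟨i, j, k⟩
  simp only [benzel, RO, Set.mem_ofPred_eq, add_sub_cancel_right]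

theorem image_trans_benzel (A B : ℤ) : trans 1 1 '' benzel (A - 2) (B - 2) = RI A B := by
  ext ⟨i, j, k⟩
  rw [Equiv.image_eq_preimage_symm]
  simp only [trans, benzel, RI, Set.mem_preimage, Set.mem_ofPred_eq, Equiv.coe_fn_symm_mk]
  omega

theorem step' (A B kc : ℤ) (hk : 3 * kc = 2 * A - B + 1) (h1 : A ≤ 2 * B - 5)
    (h2 : B ≤ 2 * A - 2) (h : Tileable (benzel (A - 2) (B - 2))) :
    Tileable (benzel (A + 1) (B + 1)) := by
  have hin : Tileable (RI A B) := by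
    rw [← image_trans_benzel]
    exact h.image _ (trans_tile 1 1)
  rw [benzel_eq_RO]
  have key : RO A B = RI A B ∪ R1 A B kc ∪ RL A kc ∪ RS A kc ∪ RE A kc ∪ R6 A B kc ∪
      R4 A B kc := by
    apply Set.Subset.antisymm
    · rintro ⟨i, j, k⟩ hc
      have := cover hk h1 h2 hc
      simp only [Set.mem_union]
      tauto
    · rintro ⟨i, j, k⟩ hc
      simp only [Set.mem_union] at hc
      rcases hc with (((((hc | hc) | hc) | hc) | hc) | hc) | hc
      · exact subI hc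
      · exact sub1 hk h1 h2 hc
      · exact subL hk h1 h2 hc
      · exact subS hk h1 h2 hc
      · exact subE hk h1 h2 hc
      · exact sub6 hk h1 h2 hc
      · exact sub4 hk h1 h2 hc
  rw [key]
  have e1 : Disjoint (RI A B) (R1 A B kc) :=
    Set.disjoint_left.2 fun ⟨_, _, _⟩ a b => dI1 a b
  have e2 : Disjoint (RI A B) (RL A kc) :=
    Set.disjoint_left.2 fun ⟨_, _, _⟩ a b => dIL hk a b
  have e3 : Disjoint (RI A B) (RS A kc) :=
    Set.disjoint_left.2 fun ⟨_, _, _⟩ a b => dIS hk a b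
  have e4 : Disjoint (RI A B) (RE A kc) :=
    Set.disjoint_left.2 fun ⟨_, _, _⟩ a b => dIE hk a b
  have e5 : Disjoint (RI A B) (R6 A B kc) :=
    Set.disjoint_left.2 fun ⟨_, _, _⟩ a b => dI6 a b
  have e6 : Disjoint (RI A B) (R4 A B kc) :=
    Set.disjoint_left.2 fun ⟨_, _, _⟩ a b => dI4 a b
  have e7 : Disjoint (R1 A B kc) (RL A kc) :=
    Set.disjoint_left.2 fun ⟨_, _, _⟩ a b => d1L a b
  have e8 : Disjoint (R1 A B kc) (RS A kc) :=
    Set.disjoint_left.2 fun ⟨_, _, _⟩ a b => d1S a b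
  have e9 : Disjoint (R1 A B kc) (RE A kc) :=
    Set.disjoint_left.2 fun ⟨_, _, _⟩ a b => d1E a b
  have e10 : Disjoint (R1 A B kc) (R6 A B kc) :=
    Set.disjoint_left.2 fun ⟨_, _, _⟩ a b => d16 hk a b
  have e11 : Disjoint (R1 A B kc) (R4 A B kc) :=
    Set.disjoint_left.2 fun ⟨_, _, _⟩ a b => d14 a b
  have e12 : Disjoint (RL A kc) (RS A kc) :=
    Set.disjoint_left.2 fun ⟨_, _, _⟩ a b => dLS a b
  have e13 : Disjoint (RL A kc) (RE A kc) :=
    Set.disjoint_left.2 fun ⟨_, _, _⟩ a b => dLE a b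
  have e14 : Disjoint (RS A kc) (RE A kc) :=
    Set.disjoint_left.2 fun ⟨_, _, _⟩ a b => dSE a b
  have e15 : Disjoint (RL A kc) (R6 A B kc) :=
    Set.disjoint_left.2 fun ⟨_, _, _⟩ a b => dL6 hk a b
  have e16 : Disjoint (RS A kc) (R6 A B kc) :=
    Set.disjoint_left.2 fun ⟨_, _, _⟩ a b => dS6 hk a b
  have e17 : Disjoint (RE A kc) (R6 A B kc) :=
    Set.disjoint_left.2 fun ⟨_, _, _⟩ a b => dE6 hk a b
  have e18 : Disjoint (RL A kc) (R4 A B kc) :=
    Set.disjoint_left.2 fun ⟨_, _, _⟩ a b => dL4 a b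
  have e19 : Disjoint (RS A kc) (R4 A B kc) :=
    Set.disjoint_left.2 fun ⟨_, _, _⟩ a b => dS4 a b
  have e20 : Disjoint (RE A kc) (R4 A B kc) :=
    Set.disjoint_left.2 fun ⟨_, _, _⟩ a b => dE4 a b
  have e21 : Disjoint (R6 A B kc) (R4 A B kc) :=
    Set.disjoint_left.2 fun ⟨_, _, _⟩ a b => d64 hk h1 h2 a b
  refine Tileable.union (Tileable.union (Tileable.union (Tileable.union (Tileable.union
    (Tileable.union hin (tileable_R1 _ _ _) e1) (tileable_RL _ _) ?_) (tileable_RS _ _) ?_)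
    (tileable_RE _ _) ?_) (tileable_R6 _ _ _) ?_) (tileable_R4 _ _ _) ?_
  all_goals
    simp only [Set.disjoint_union_left]
    tauto

theorem step (a b : ℤ) (hk : (a + b) % 3 = 0) (h1 : a ≤ 2 * b - 3) (h2 : b ≤ 2 * a)
    (h : Tileable (benzel a b)) : Tileable (benzel (a + 3) (b + 3)) := by
  obtain ⟨kc, hkc⟩ : ∃ kc, 3 * kc = 2 * (a + 2) - (b + 2) + 1 :=
    ⟨(2 * (a + 2) - (b + 2) + 1) / 3, by omega⟩
  have := step' (a + 2) (b + 2) kc hkc (by omega) (by omega) (by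
    rw [show a + 2 - 2 = a by ring, show b + 2 - 2 = b by ring]; exact h)
  rwa [show a + 2 + 1 = a + 3 by ring, show b + 2 + 1 = b + 3 by ring] at this

end Pool.Agent.Lib.MP_cb668b_co
end

section

set_option autoImplicit false

namespace Pool.Agent.Lib.MP_cb668b_co

theorem exists_tri (n : ℕ) : ∃ s : ℕ, 2 * n ≤ s * (s + 1) := ⟨2 * n, by nlinarith⟩

open Classical in
/-- The index of the triangular interval containing `n`. -/
noncomputable def sN (n : ℕ) : ℕ := Nat.find (exists_tri n)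

/-- Integer version. -/
noncomputable def sZ (k : ℤ) : ℤ := (sN k.toNat : ℤ)

theorem sZ_spec {k : ℤ} (hk : 1 ≤ k) : 1 ≤ sZ k ∧ (sZ k - 1) * sZ k + 2 ≤ 2 * k ∧
    2 * k ≤ sZ k * (sZ k + 1) := by
  classical
  obtain ⟨n, rfl⟩ := Int.eq_ofNat_of_zero_le (by omega : 0 ≤ k)
  have hn : 1 ≤ n := by exact_mod_cast hk
  have h1 : 2 * n ≤ sN n * (sN n + 1) := Nat.find_spec (exists_tri n)
  have h0 : 1 ≤ sN n := by
    by_contra h
    have : sN n = 0 := by omega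
    rw [this] at h1
    omega
  have h2 : ¬ (2 * n ≤ (sN n - 1) * (sN n - 1 + 1)) :=
    Nat.find_min (exists_tri n) (m := sN n - 1) (by
      change sN n - 1 < sN n
      omega)
  obtain ⟨m, hm⟩ : ∃ m, sN n = m + 1 := ⟨sN n - 1, by omega⟩
  rw [hm] at h1 h2
  simp only [add_tsub_cancel_right] at h2
  have h3 : m * (m + 1) < 2 * n := by omega
  have h4 : (m * (m + 1)) % 2 = 0 := Nat.even_iff.1 (Nat.even_mul_succ_self m)
  have h5 : m * (m + 1) + 2 ≤ 2 * n := by omega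
  have e : sZ (n : ℤ) = (m : ℤ) + 1 := by
    simp [sZ, hm]
  have h6 : ((m : ℤ) * (m + 1)) + 2 ≤ 2 * n := by exact_mod_cast h5
  have h7 : (2 * (n : ℤ)) ≤ ((m : ℤ) + 1) * (m + 1 + 1) := by exact_mod_cast h1
  change 1 ≤ sZ (n : ℤ) ∧ (sZ (n : ℤ) - 1) * sZ (n : ℤ) + 2 ≤ 2 * (n : ℤ) ∧
    2 * (n : ℤ) ≤ sZ (n : ℤ) * (sZ (n : ℤ) + 1)
  rw [e]
  refine ⟨by omega, ?_, h7⟩
  linarith

theorem sZ_le {k : ℤ} (hk : 1 ≤ k) : sZ k ≤ k := by
  obtain ⟨h1, h2, h3⟩ := sZ_spec hk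
  nlinarith

theorem dual {i k : ℤ} (hi : 1 ≤ i) (hk : 1 ≤ k) : i ≤ k + sZ k ↔ ¬ (k ≤ i - sZ i) := by
  obtain ⟨u1, u2, u3⟩ := sZ_spec hk
  obtain ⟨v1, v2, v3⟩ := sZ_spec hi
  generalize sZ k = u at *
  generalize sZ i = v at *
  constructor
  · intro h h'
    -- `v ≤ i - k ≤ u`, forces `u ≤ v`
    have huv : u ≤ v := by
      by_contra hlt
      have : v + 1 ≤ u := by omega
      nlinarith
    have : u = v := by omega
    subst this
    have : i = k + u := by omega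
    subst this
    nlinarith
  · intro h
    by_contra h'
    have h1 : u + 1 ≤ i - k := by omega
    have h2 : i - k + 1 ≤ v := by omega
    nlinarith

/-- The fundamental region. -/
def Q0 : Set (ℤ × ℤ × ℤ) :=
  {c | c.1 + c.2.1 + c.2.2 = 1 ∧ 1 ≤ c.2.2 ∧ c.1 ≤ c.2.2 + sZ c.2.2 ∧ c.2.1 ≤ c.2.2 - sZ c.2.2}

open Classical in
/-- Left end of a row. -/
noncomputable def lf (a d k : ℤ) : ℤ := if sZ k ≤ d then -2 * k + 1 + sZ k else k - a + 1

open Classical in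
/-- Right end of a row. -/
noncomputable def rf (b d k : ℤ) : ℤ := if sZ k ≤ d - 1 then k + sZ k else b - 2 * k

theorem row_iff {a b d : ℤ} (hd : 1 ≤ d) (ha : 2 * a = 3 * d ^ 2 + d)
    (hb : 2 * b = 3 * d ^ 2 - d) (i j k : ℤ) :
    (i, j, k) ∈ benzel a b ∩ Q0 ↔ i + j + k = 1 ∧ 1 ≤ k ∧ lf a d k ≤ i ∧ i ≤ rf b d k := by
  simp only [benzel, Q0, Set.mem_inter_iff, Set.mem_ofPred_eq, lf, rf]
  by_cases hk : 1 ≤ k
  swap
  · constructor
    · rintro ⟨-, -, h, -⟩; exact absurd h hk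
    · rintro ⟨-, h, -⟩; exact absurd h hk
  obtain ⟨u1, u2, u3⟩ := sZ_spec hk
  generalize sZ k = s at *
  have hs2 : s * s - s + 2 ≤ 2 * k := by nlinarith
  have hs3 : 2 * k ≤ s * s + s := by nlinarith
  by_cases c1 : s ≤ d - 1
  · have c2 : s ≤ d := by omega
    rw [if_pos c1, if_pos c2]
    have hsq : s * s ≤ d ^ 2 - 2 * d + 1 := by nlinarith
    constructor
    · rintro ⟨⟨h1, ⟨h2, h3⟩, ⟨h4, h5⟩, h6, h7⟩, h8, h9, h10, h11⟩
      refine ⟨h1, hk, ?_, ?_⟩ <;> omega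
    · rintro ⟨h1, h2, h3, h4⟩
      obtain rfl : j = 1 - i - k := by omega
      refine ⟨⟨h1, ⟨?_, ?_⟩, ⟨?_, ?_⟩, ?_, ?_⟩, h1, hk, ?_, ?_⟩ <;> linarith
  · by_cases c2 : s ≤ d
    · rw [if_neg c1, if_pos c2]
      have hsd : s = d := by omega
      subst hsd
      have hsq : s * s = s ^ 2 := by ring
      constructor
      · rintro ⟨⟨h1, ⟨h2, h3⟩, ⟨h4, h5⟩, h6, h7⟩, h8, h9, h10, h11⟩
        refine ⟨h1, hk, ?_, ?_⟩ <;> omega
      · rintro ⟨h1, h2, h3, h4⟩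
        obtain rfl : j = 1 - i - k := by omega
        refine ⟨⟨h1, ⟨?_, ?_⟩, ⟨?_, ?_⟩, ?_, ?_⟩, h1, hk, ?_, ?_⟩ <;> nlinarith
    · rw [if_neg c1, if_neg c2]
      have c3 : d + 1 ≤ s := by omega
      have hsq : d ^ 2 + d + 2 * (s - d - 1) ≤ s * s - s := by nlinarith
      constructor
      · rintro ⟨⟨h1, ⟨h2, h3⟩, ⟨h4, h5⟩, h6, h7⟩, h8, h9, h10, h11⟩
        refine ⟨h1, hk, ?_, ?_⟩ <;> omega
      · rintro ⟨h1, h2, h3, h4⟩
        obtain rfl : j = 1 - i - k := by omega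
        refine ⟨⟨h1, ⟨?_, ?_⟩, ⟨?_, ?_⟩, ?_, ?_⟩, h1, hk, ?_, ?_⟩ <;> nlinarith

theorem row_dvd {a b d : ℤ} (ha : 2 * a = 3 * d ^ 2 + d)
    (hb : 2 * b = 3 * d ^ 2 - d) (k : ℤ) : ∃ q, rf b d k + 1 - lf a d k = 3 * q := by
  unfold rf lf
  by_cases c1 : sZ k ≤ d - 1
  · have c2 : sZ k ≤ d := by omega
    rw [if_pos c1, if_pos c2]
    exact ⟨k, by ring⟩
  · by_cases c2 : sZ k ≤ d
    · rw [if_neg c1, if_pos c2]
      have hsd : sZ k = d := by omega
      rw [hsd]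
      obtain ⟨m, hm⟩ : ∃ m, d * (d - 1) = 2 * m := by
        obtain ⟨m, hm⟩ := Int.even_mul_pred_self d
        exact ⟨m, by linarith⟩
      refine ⟨m, ?_⟩
      nlinarith
    · rw [if_neg c1, if_neg c2]
      refine ⟨d ^ 2 - k, ?_⟩
      linarith

theorem tileable_piece {a b d : ℤ} (hd : 1 ≤ d) (ha : 2 * a = 3 * d ^ 2 + d)
    (hb : 2 * b = 3 * d ^ 2 - d) : Tileable (benzel a b ∩ Q0) := by
  refine tileable_of_base (1, -1, 0) (Or.inl rfl) _
    (fun c => (lf a d c.2.2 + 3 * ((c.1 - lf a d c.2.2) / 3),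
      1 - c.2.2 - (lf a d c.2.2 + 3 * ((c.1 - lf a d c.2.2) / 3)), c.2.2)) ?_
  rintro ⟨i, j, k⟩ hc
  rw [row_iff hd ha hb] at hc
  obtain ⟨h1, h2, h3, h4⟩ := hc
  obtain ⟨q, hq⟩ := row_dvd ha hb k
  simp only [Prod.mk_add_mk, Prod.smul_mk, Prod.mk.injEq,
    nsmul_eq_mul, add_zero, mul_zero, and_true, row_iff hd ha hb]
  push_cast
  generalize lf a d k = l at *
  generalize rf b d k = r at *
  refine ⟨?_, ?_, ?_, ?_, ?_, ?_, ?_, ?_⟩ <;> omega

theorem mem_rot_image (S : Set (ℤ × ℤ × ℤ)) (i j k : ℤ) :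
    (i, j, k) ∈ rot '' S ↔ (k, i, j) ∈ S := by
  rw [Equiv.image_eq_preimage_symm]
  rfl

theorem base {a b d : ℤ} (hd : 1 ≤ d) (ha : 2 * a = 3 * d ^ 2 + d)
    (hb : 2 * b = 3 * d ^ 2 - d) : Tileable (benzel a b) := by
  have t0 := tileable_piece hd ha hb
  have t1 : Tileable (rot '' (benzel a b ∩ Q0)) := t0.image rot rot_tile
  have t2 : Tileable (rot '' (rot '' (benzel a b ∩ Q0))) := t1.image rot rot_tile
  have hb1 : ∀ i j k : ℤ, (k, i, j) ∈ benzel a b ↔ (i, j, k) ∈ benzel a b := by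
    intro i j k
    simp only [benzel, Set.mem_ofPred_eq]
    omega
  have key : benzel a b = (benzel a b ∩ Q0 ∪ rot '' (benzel a b ∩ Q0)) ∪
      rot '' (rot '' (benzel a b ∩ Q0)) := by
    ext ⟨i, j, k⟩
    simp only [Set.mem_union, mem_rot_image, Set.mem_inter_iff]
    rw [hb1 i j k, ← hb1 j k i]
    by_cases hB : (i, j, k) ∈ benzel a b
    swap
    · simp [hB]
    simp only [hB, true_and, true_iff]
    have h1 : i + j + k = 1 := hB.1
    simp only [Q0, Set.mem_ofPred_eq]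
    by_cases hk : 1 ≤ k
    · by_cases hi : 1 ≤ i
      · have hd1 := dual hi hk
        have := sZ_le hk
        have := sZ_spec hi
        by_cases h : i ≤ k + sZ k
        · left; left; refine ⟨h1, hk, h, by omega⟩
        · right
          have : k ≤ i - sZ i := by
            by_contra h'
            exact h (hd1.2 h')
          refine ⟨by omega, hi, by omega, this⟩
      · by_cases hj : 1 ≤ j
        · have hd1 := dual hk hj
          have := sZ_spec hk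
          by_cases h : k ≤ j + sZ j
          · left; right
            have := sZ_le hj
            exact ⟨by omega, hj, h, by omega⟩
          · left; left
            have : j ≤ k - sZ k := by
              by_contra h'
              exact h (hd1.2 h')
            exact ⟨h1, hk, by omega, this⟩
        · left; left
          have := sZ_le hk
          have := sZ_spec hk
          exact ⟨h1, hk, by omega, by omega⟩
    · by_cases hi : 1 ≤ i
      · by_cases hj : 1 ≤ j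
        · have hd1 := dual hj hi
          have := sZ_spec hj
          by_cases h : j ≤ i + sZ i
          · right
            have := sZ_le hi
            exact ⟨by omega, hi, h, by omega⟩
          · left; right
            have : i ≤ j - sZ j := by
              by_contra h'
              exact h (hd1.2 h')
            exact ⟨by omega, hj, by omega, this⟩
        · right
          have := sZ_le hi
          have := sZ_spec hi
          exact ⟨by omega, hi, by omega, by omega⟩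
      · left; right
        have hj : 1 ≤ j := by omega
        have := sZ_le hj
        have := sZ_spec hj
        exact ⟨by omega, hj, by omega, by omega⟩
  rw [key]
  refine Tileable.union (Tileable.union t0 t1 ?_) t2 ?_
  · rw [Set.disjoint_left]
    rintro ⟨i, j, k⟩ ha' hb'
    rw [mem_rot_image] at hb'
    obtain ⟨a1, a2, a3, a4⟩ := ha'.2
    obtain ⟨b1, b2, b3, b4⟩ := hb'.2
    simp only at a1 a2 a3 a4 b1 b2 b3 b4
    exact (dual a2 b2).1 b3 a4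
  · rw [Set.disjoint_left]
    rintro ⟨i, j, k⟩ ha' hb'
    rw [mem_rot_image, mem_rot_image] at hb'
    obtain ⟨b1, b2, b3, b4⟩ := hb'.2
    simp only at b1 b2 b3 b4
    rcases ha' with ha' | ha'
    · obtain ⟨a1, a2, a3, a4⟩ := ha'.2
      simp only at a1 a2 a3 a4
      exact (dual b2 a2).1 a3 b4
    · rw [mem_rot_image] at ha'
      obtain ⟨a1, a2, a3, a4⟩ := ha'.2
      simp only at a1 a2 a3 a4
      exact (dual a2 b2).1 b3 a4

/-- The benzel `B(3, 3)`. -/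
theorem base33 : Tileable (benzel 3 3) := by
  have h1 : IsLeftStone ({(-1, 1, 1), (0, 0, 1), (0, 1, 0)} : Set (ℤ × ℤ × ℤ)) :=
    ⟨0, 1, 1, by norm_num, by norm_num⟩
  have h2 : IsBone ({(1, -1, 1), (1, 0, 0), (1, 1, -1)} : Set (ℤ × ℤ × ℤ)) :=
    ⟨(1, -1, 1), (0, 1, -1), by norm_num, Or.inr (Or.inl rfl), by norm_num⟩
  have key : benzel 3 3 = {(-1, 1, 1), (0, 0, 1), (0, 1, 0)} ∪
      {(1, -1, 1), (1, 0, 0), (1, 1, -1)} := by
    ext ⟨i, j, k⟩
    simp only [benzel, Set.mem_ofPred_eq, Set.mem_union, Set.mem_insert_iff,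
      Set.mem_singleton_iff, Prod.mk.injEq]
    omega
  rw [key]
  refine Tileable.union (tileable_singleton (Or.inl h1)) (tileable_singleton (Or.inr h2)) ?_
  rw [Set.disjoint_left]
  rintro ⟨i, j, k⟩ h h'
  simp only [Set.mem_insert_iff, Set.mem_singleton_iff, Prod.mk.injEq] at h h'
  omega

end Pool.Agent.Lib.MP_cb668b_co
end

section

set_option autoImplicit false

namespace Pool.Agent.Lib.MP_cb668b_co

/-- The benzel `B(5, 4)`. -/
theorem base54 : Tileable (benzel 5 4) := by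
  have h1 : IsLeftStone ({(-2, 1, 2), (-1, 0, 2), (-1, 1, 1)} : Set (ℤ × ℤ × ℤ)) :=
    ⟨-1, 1, 2, by norm_num, by norm_num⟩
  have h2 : IsBone ({(1, -1, 1), (1, 0, 0), (1, 1, -1)} : Set (ℤ × ℤ × ℤ)) :=
    ⟨(1, -1, 1), (0, 1, -1), by norm_num, Or.inr (Or.inl rfl), by norm_num⟩
  have h3 : IsBone ({(2, -2, 1), (2, -1, 0), (2, 0, -1)} : Set (ℤ × ℤ × ℤ)) :=
    ⟨(2, -2, 1), (0, 1, -1), by norm_num, Or.inr (Or.inl rfl), by norm_num⟩
  have h4 : IsBone ({(0, -1, 2), (0, 0, 1), (0, 1, 0)} : Set (ℤ × ℤ × ℤ)) :=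
    ⟨(0, -1, 2), (0, 1, -1), by norm_num, Or.inr (Or.inl rfl), by norm_num⟩
  have h5 : IsBone ({(1, 2, -2), (0, 2, -1), (-1, 2, 0)} : Set (ℤ × ℤ × ℤ)) :=
    ⟨(1, 2, -2), (-1, 0, 1), by norm_num, Or.inr (Or.inr rfl), by norm_num⟩
  have key : benzel 5 4 = ((({(-2, 1, 2), (-1, 0, 2), (-1, 1, 1)} ∪
      {(1, -1, 1), (1, 0, 0), (1, 1, -1)}) ∪ {(2, -2, 1), (2, -1, 0), (2, 0, -1)}) ∪
      {(0, -1, 2), (0, 0, 1), (0, 1, 0)}) ∪ {(1, 2, -2), (0, 2, -1), (-1, 2, 0)} := by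
    ext ⟨i, j, k⟩
    simp only [benzel, Set.mem_ofPred_eq, Set.mem_union, Set.mem_insert_iff,
      Set.mem_singleton_iff, Prod.mk.injEq]
    constructor
    · rintro ⟨h1, ⟨h2, h3⟩, ⟨h4, h5⟩, h6, h7⟩
      obtain rfl : j = 1 - i - k := by omega
      have : -2 ≤ i := by omega
      have : i ≤ 2 := by omega
      have : -2 ≤ k := by omega
      have : k ≤ 2 := by omega
      interval_cases i <;> interval_cases k <;> first | (exfalso; omega) | norm_num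
    · intro h
      rcases h with (((h | h) | h) | h) | h <;> omega
  rw [key]
  refine Tileable.union (Tileable.union (Tileable.union (Tileable.union
    (tileable_singleton (Or.inl h1)) (tileable_singleton (Or.inr h2)) ?_)
    (tileable_singleton (Or.inr h3)) ?_) (tileable_singleton (Or.inr h4)) ?_)
    (tileable_singleton (Or.inr h5)) ?_
  all_goals
    rw [Set.disjoint_left]
    rintro ⟨i, j, k⟩ h h'
    simp only [Set.mem_union, Set.mem_insert_iff, Set.mem_singleton_iff, Prod.mk.injEq] at h h'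
    omega

theorem iter (a b : ℤ) (hk : (a + b) % 3 = 0) (h1 : a ≤ 2 * b - 3) (h2 : b ≤ 2 * a)
    (ha : 0 ≤ a) (hb : 0 ≤ b) (h : Tileable (benzel a b)) (m : ℕ) :
    Tileable (benzel (a + 3 * m) (b + 3 * m)) := by
  induction m with
  | zero => simpa using h
  | succ m ih =>
    have := step (a + 3 * m) (b + 3 * m) (by omega) (by omega) (by omega) ih
    push_cast
    rw [show a + 3 * ((m : ℤ) + 1) = a + 3 * m + 3 by ring,
      show b + 3 * ((m : ℤ) + 1) = b + 3 * m + 3 by ring]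
    exact this

theorem main_aux (a b : ℤ) (h1 : 2 ≤ a) (h3 : 2 ≤ b) (hab : b ≤ a)
    (hmod : (a + b) % 3 = 0) (hI : 3 * (a - b) ^ 2 ≤ a + b) : Tileable (benzel a b) := by
  obtain ⟨d, hd⟩ : ∃ d, a = b + d := ⟨a - b, by ring⟩
  subst hd
  have hd0 : 0 ≤ d := by omega
  have hI' : 3 * d ^ 2 ≤ 2 * b + d := by
    have : b + d - b = d := by ring
    rw [this] at hI
    linarith
  obtain ⟨e, he⟩ : ∃ e, d ^ 2 - d = 2 * e := by
    obtain ⟨e, he⟩ := Int.even_mul_pred_self d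
    exact ⟨e, by linarith [he, (by ring : d ^ 2 - d = d * (d - 1))]⟩
  rcases (by omega : d = 0 ∨ d = 1 ∨ 2 ≤ d) with h | h | h
  · subst h
    obtain ⟨m, hm⟩ : ∃ m : ℕ, b = 3 + 3 * m := ⟨((b - 3) / 3).toNat, by omega⟩
    rw [hm, add_zero]
    exact iter 3 3 (by norm_num) (by norm_num) (by norm_num) (by norm_num) (by norm_num)
      base33 m
  · subst h
    obtain ⟨m, hm⟩ : ∃ m : ℕ, b = 4 + 3 * m := ⟨((b - 4) / 3).toNat, by omega⟩
    rw [hm, show (4 : ℤ) + 3 * m + 1 = 5 + 3 * m by ring]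
    exact iter 5 4 (by norm_num) (by norm_num) (by norm_num) (by norm_num) (by norm_num)
      base54 m
  · -- general `d`
    set b0 : ℤ := d ^ 2 + e with hb0
    have e1 : 2 * b0 = 3 * d ^ 2 - d := by rw [hb0]; linarith
    have e2 : 2 * (b0 + d) = 3 * d ^ 2 + d := by linarith
    have hbase : Tileable (benzel (b0 + d) b0) := base (by omega) e2 e1
    have hsq : 2 * d ≤ d ^ 2 := by nlinarith
    obtain ⟨m, hm⟩ : ∃ m : ℕ, b = b0 + 3 * m := by
      refine ⟨((b - b0) / 3).toNat, ?_⟩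
      have h6 : b0 ≤ b := by omega
      have h7 : (b - b0) % 3 = 0 := by
        have h8 : (b + d + b) % 3 = 0 := hmod
        omega
      omega
    rw [hm, show b0 + 3 * (m : ℤ) + d = (b0 + d) + 3 * m by ring]
    refine iter (b0 + d) b0 ?_ (by omega) (by omega) (by omega) (by omega) hbase m
    omega

theorem main (a b : ℤ) (h1 : 2 ≤ a) (h2 : a ≤ 2 * b) (h3 : 2 ≤ b) (h4 : b ≤ 2 * a)
    (hI : invI a b ≤ 0) : Tileable (benzel a b) := by
  have hmod : (a + b) % 3 = 0 ∧ 3 * (a - b) ^ 2 ≤ a + b := by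
    unfold invI at hI
    by_cases c1 : (a + b) % 3 = 0
    · rw [if_pos c1] at hI
      refine ⟨c1, ?_⟩
      have : 3 * a ^ 2 - 6 * a * b + 3 * b ^ 2 - a - b = 3 * (a - b) ^ 2 - (a + b) := by ring
      rw [this] at hI
      have hev : (3 * (a - b) ^ 2 - (a + b)) % 2 = 0 := by
        obtain ⟨x, hx⟩ := Int.even_mul_pred_self (a - b)
        have : 3 * (a - b) ^ 2 - (a + b) = 2 * (3 * x + (a - 2 * b)) := by
          have : (a - b) ^ 2 = 2 * x + (a - b) := by linarith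
          rw [this]; ring
        rw [this]; omega
      omega
    · exfalso
      rw [if_neg c1] at hI
      by_cases c2 : (a + b) % 3 = 1
      · rw [if_pos c2] at hI
        have : 2 ≤ -a ^ 2 + 4 * a * b - b ^ 2 - a - b + 2 := by nlinarith
        omega
      · rw [if_neg c2] at hI
        have : 2 ≤ 3 * a ^ 2 - 6 * a * b + 3 * b ^ 2 + a + b - 2 := by nlinarith [sq_nonneg (a - b)]
        omega
  rcases le_total b a with h | h
  · exact main_aux a b h1 h3 h hmod.1 hmod.2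
  · have := main_aux b a h3 h1 h (by omega) (by nlinarith [hmod.2])
    have h5 := this.image refl refl_tile
    rwa [image_refl_benzel] at h5

end Pool.Agent.Lib.MP_cb668b_co
end
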